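import Pool.Agent.Helper21.RM.StmtsE

/-!
Row ADS of the table rm_mods.
-/

set_option autoImplicit false

open Polynomial

namespace Pool.Agent.Helper72.RM

lemma exists_eig {K V : Type*} [Field K] [AddCommGroup V] [Module K V] (T : Module.End K V) (μ : K)
    (W : Submodule K V) (hW : ∀ x ∈ W, T x ∈ W) : ∀ (k : ℕ) (x : V), x ∈ W → x ≠ 0 →
      ((T - algebraMap K (Module.End K V) μ) ^ k) x = 0 → ∃ y ∈ W, y ≠ 0 ∧ T y = μ • y := by
  intro k
  induction k with
  | zero =>
    intro x _ hx h0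
    exact absurd (by simpa using h0) hx
  | succ k ih =>
    intro x hxW hx h0
    have e : (T - algebraMap K (Module.End K V) μ) x = T x - μ • x := by
      simp [Module.algebraMap_end_apply]
    by_cases h : T x = μ • x
    · exact ⟨x, hxW, hx, h⟩
    · apply ih (T x - μ • x) (W.sub_mem (hW x hxW) (W.smul_mem μ hxW)) (sub_ne_zero.mpr h)
      rw [pow_succ] at h0
      rw [← e]
      exact h0

lemma sqf (K : Type*) [Field K] [CharZero K] : Squarefree (X ^ 3 - X : K[X]) := by
  apply Separable.squarefree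
  have h2 : (C (3 / 2) : K[X]) * 2 = 3 := by
    rw [show (2 : K[X]) = C 2 from rfl, show (3 : K[X]) = C 3 from rfl, ← C_mul]
    congr 1
    norm_num
  refine ⟨-(3 * C (3 / 2)) * X, C (3 / 2) * X ^ 2 - 1, ?_⟩
  have e : derivative (X ^ 3 - X : K[X]) = 3 * X ^ 2 - 1 := by
    have h3 : (C (3 : K) : K[X]) = 3 := rfl
    simp [derivative_pow, h3]
  rw [e]
  linear_combination X ^ 2 * h2

section

variable {K V : Type*} [Field K] [IsAlgClosed K] [AddCommGroup V] [Module K V]
  [FiniteDimensional K V]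

/-- an eigenvector in a nonzero stable subspace -/
lemma exists_eig' (D : Module.End K V) (W : Submodule K V) (hW : ∀ x ∈ W, D x ∈ W) (x : V)
    (hx : x ∈ W) (hx0 : x ≠ 0) : ∃ (k : K) (y : V), y ∈ W ∧ y ≠ 0 ∧ D y = k • y := by
  have : Nontrivial W := ⟨⟨⟨x, hx⟩, 0, fun h => hx0 (congrArg Subtype.val h)⟩⟩
  obtain ⟨k, hk⟩ := Module.End.exists_eigenvalue (D.restrict hW)
  obtain ⟨y, hy⟩ := hk.exists_hasEigenvector
  refine ⟨k, y, y.2, fun h => hy.2 (Subtype.ext h), ?_⟩
  exact congrArg Subtype.val hy.apply_eq_smul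

/-- the semisimple operator `D` is a scalar on the generalised eigenspace of `T` -/
lemma scalar_on (T D : Module.End K V) (hTD : ∀ x, T (D x) = D (T x)) (hD : D.IsSemisimple)
    (hyp : ∀ (t k l : K) (x y : V), x ≠ 0 → y ≠ 0 → T x = t • x → T y = t • y → D x = k • x →
      D y = l • y → k = l) (μ : K) (x : V) (hx : x ∈ T.maxGenEigenspace μ) :
    ∃ k : K, D x = k • x := by
  have hcomm : Commute T D := LinearMap.ext hTD
  have hDW : ∀ y ∈ T.maxGenEigenspace μ, D y ∈ T.maxGenEigenspace μ := fun y hy =>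
    Module.End.mapsTo_maxGenEigenspace_of_comm hcomm μ hy
  have hTW : ∀ y ∈ T.maxGenEigenspace μ, T y ∈ T.maxGenEigenspace μ := fun y hy =>
    Module.End.mapsTo_maxGenEigenspace_of_comm (Commute.refl T) μ hy
  by_cases hx0 : x = 0
  · exact ⟨0, by simp [hx0]⟩
  obtain ⟨k, b, hbW, hb0, hb⟩ := exists_eig' D _ hDW x hx hx0
  refine ⟨k, ?_⟩
  by_contra hne
  -- joint eigenvectors
  have joint : ∀ (m : K) (z : V), z ∈ T.maxGenEigenspace μ → z ≠ 0 → D z = m • z →
      ∃ y : V, y ≠ 0 ∧ T y = μ • y ∧ D y = m • y := by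
    intro m z hz hz0 hzm
    obtain ⟨j, hj⟩ := (Module.End.mem_maxGenEigenspace T μ z).mp hz
    obtain ⟨y, hyW, hy0, hy⟩ := exists_eig T μ (D.eigenspace m)
      (fun y hy => by
        rw [Module.End.mem_eigenspace_iff] at hy ⊢
        rw [← hTD, hy, map_smul]) j z (Module.End.mem_eigenspace_iff.mpr hzm) hz0
      (by simpa [Algebra.algebraMap_eq_smul_one] using hj)
    exact ⟨y, hy0, hy, Module.End.mem_eigenspace_iff.mp hyW⟩
  set W' : Submodule K V := (T.maxGenEigenspace μ).map (D - algebraMap K (Module.End K V) k)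
    with hW'
  have e : ∀ z, (D - algebraMap K (Module.End K V) k) z = D z - k • z := by
    intro z
    simp [Module.algebraMap_end_apply]
  have hmem : D x - k • x ∈ W' := ⟨x, hx, e x⟩
  have hW'D : ∀ y ∈ W', D y ∈ W' := by
    rintro _ ⟨z, hz, rfl⟩
    refine ⟨D z, hDW z hz, ?_⟩
    rw [e, e, map_sub, map_smul]
  obtain ⟨l, b', hb'W, hb'0, hb'⟩ := exists_eig' D W' hW'D _ hmem (sub_ne_zero.mpr hne)
  obtain ⟨z, hz, hzb⟩ := hb'W
  have hb'mem : b' ∈ T.maxGenEigenspace μ := by
    rw [← hzb, e]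
    exact Submodule.sub_mem _ (hDW z hz) (Submodule.smul_mem _ k hz)
  obtain ⟨y1, hy1, hT1, hD1⟩ := joint k b hbW hb0 hb
  obtain ⟨y2, hy2, hT2, hD2⟩ := joint l b' hb'mem hb'0 hb'
  have hkl : k = l := hyp μ k l y1 y2 hy1 hy2 hT1 hT2 hD1 hD2
  subst hkl
  -- semisimplicity
  have hz2 : z ∈ D.maxGenEigenspace k := by
    rw [Module.End.mem_maxGenEigenspace]
    refine ⟨2, ?_⟩
    have : (D - algebraMap K (Module.End K V) k) ((D - algebraMap K (Module.End K V) k) z) = 0 := by
      rw [hzb, e, hb', sub_self]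
    rw [pow_two]
    simpa [Algebra.algebraMap_eq_smul_one] using this
  rw [hD.isFinitelySemisimple.maxGenEigenspace_eq_eigenspace, Module.End.mem_eigenspace_iff] at hz2
  apply hb'0
  rw [← hzb, e, hz2, sub_self]

end

end Pool.Agent.Helper72.RM

open Pool.Agent.Helper72.RM in
/-- row ADS -/
theorem MR.st_ADS : MR.ST_ADS := by
  intro K _ _ _ n g C hCg hC hyp a ha A hA
  set G : Matrix (Fin n) (Fin n) K := (g : Matrix (Fin n) (Fin n) K) with hG
  set G' : Matrix (Fin n) (Fin n) K :=
    ((g⁻¹ : Matrix.GeneralLinearGroup (Fin n) K) : Matrix (Fin n) (Fin n) K) with hG'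
  have hGG' : G * G' = 1 := by
    rw [hG, hG', ← Units.val_mul, mul_inv_cancel, Units.val_one]
  have hG'G : G' * G = 1 := by
    rw [hG, hG', ← Units.val_mul, inv_mul_cancel, Units.val_one]
  have hG'C : G' * C = C * G' := by
    calc G' * C = G' * C * (G * G') := by rw [hGG', mul_one]
      _ = G' * (C * G) * G' := by simp only [mul_assoc]
      _ = G' * G * C * G' := by rw [hCg]; simp only [mul_assoc]
      _ = C * G' := by rw [hG'G, one_mul]
  set T : Module.End K (Matrix (Fin n) (Fin n) K) :=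
    (LinearMap.mulLeft K G) * (LinearMap.mulRight K G') with hT
  set D : Module.End K (Matrix (Fin n) (Fin n) K) :=
    (LinearMap.mulLeft K C) - (LinearMap.mulRight K C) with hD
  have hTx : ∀ x, T x = G * x * G' := by
    intro x
    simp [hT, mul_assoc]
  have hDx : ∀ x, D x = C * x - x * C := by
    intro x
    simp [hD]
  have hTD : ∀ x, T (D x) = D (T x) := by
    intro x
    rw [hDx, hTx, hTx, hDx]
    calc G * (C * x - x * C) * G' = (G * C) * x * G' - G * x * (C * G') := by
          simp only [mul_sub, sub_mul, mul_assoc]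
      _ = C * (G * x * G') - G * x * G' * C := by
          rw [← hCg, ← hG'C]
          simp only [mul_assoc]
  have hss : ∀ f : Module.End K (Matrix (Fin n) (Fin n) K), f ^ 3 = f → f.IsSemisimple := by
    intro f hf
    apply Module.End.isSemisimple_of_squarefree_aeval_eq_zero (sqf K)
    simp [hf]
  have hC3 : C ^ 3 = C := by
    rw [pow_succ, pow_two, hC]
  have hDss : D.IsSemisimple := by
    apply Module.End.IsSemisimple.sub_of_commute (LinearMap.commute_mulLeft_right C C)
    · apply hss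
      rw [LinearMap.pow_mulLeft, hC3]
    · apply hss
      rw [LinearMap.pow_mulRight, hC3]
  have hyp' : ∀ (t k l : K) (x y : Matrix (Fin n) (Fin n) K), x ≠ 0 → y ≠ 0 → T x = t • x →
      T y = t • y → D x = k • x → D y = l • y → k = l := by
    intro t k l x y hx hy h1 h2 h3 h4
    have conv : ∀ z : Matrix (Fin n) (Fin n) K, T z = t • z → G * z = t • (z * G) := by
      intro z hz
      rw [hTx] at hz
      calc G * z = G * z * (G' * G) := by rw [hG'G, mul_one]
        _ = (G * z * G') * G := by simp only [mul_assoc]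
        _ = t • (z * G) := by rw [hz, smul_mul_assoc]
    exact hyp t k l x y hx hy (conv x h1) (conv y h2) (by rw [← hDx, h3]) (by rw [← hDx, h4])
  have hTa : ∀ x ∈ a, T x ∈ a := by
    intro x hx
    rw [hTx]
    exact ha x hx
  have hA' : A ∈ ⨆ μ, a ⊓ T.maxGenEigenspace μ := by
    have h := Submodule.eq_iSup_inf_genEigenspace (p := a) (f := T) ⊤ hTa
      (Module.End.iSup_maxGenEigenspace_eq_top T)
    have hA2 := hA
    rw [h] at hA2
    exact hA2
  rw [← hDx]
  refine Submodule.iSup_induction (fun μ => a ⊓ T.maxGenEigenspace μ)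
    (motive := fun x => D x ∈ a) hA' ?_ ?_ ?_
  · intro μ x hx
    obtain ⟨k, hk⟩ := scalar_on T D hTD hDss hyp' μ x hx.2
    rw [hk]
    exact a.smul_mem k hx.1
  · rw [map_zero]
    exact a.zero_mem
  · intro x y hx hy
    rw [map_add]
    exact a.add_mem hx hy
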